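import Pool.Agent.Y710.NS.Conv2

/-!
Passage from smooth periodic solutions of the Navier-Stokes equations to the Fourier side, part 3.
-/

open MeasureTheory Set Filter Topology
open scoped ContDiff

set_option autoImplicit false

namespace Pool.Agent.Y710.NS.Cnv

open Pool.Agent.H356R3.NS hiding K sq
open Pool.Agent.Y6

lemma norm_le_sum (v : C3) : ‖v‖ ≤ ∑ i, ‖v i‖ := by
  rw [pi_norm_le_iff_of_nonneg (Finset.sum_nonneg fun _ _ => norm_nonneg _)]
  intro i
  exact Finset.single_le_sum (f := fun i => ‖v i‖) (fun _ _ => norm_nonneg _) (Finset.mem_univ i)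

lemma pw_le_N (k : K) : pw k ≤ 1 + 3 * (H459R3.NS.N k : ℝ) := by
  unfold pw l1
  have h1 : ∀ i, |(k i : ℝ)| ≤ H459R3.NS.N k := by
    intro i
    have := H459R3.NS.abs_le_N k i
    rwa [Complex.norm_intCast] at this
  rw [Fin.sum_univ_three]
  have a := h1 0
  have b := h1 1
  have c := h1 2
  linarith

lemma pw_pow_le (k : K) (n : ℕ) : pw k ^ n ≤ 4 ^ n * (1 + (H459R3.NS.N k : ℝ) ^ n) := by
  have h0 : (0 : ℝ) ≤ H459R3.NS.N k := Nat.cast_nonneg _
  have h1 := pw_le_N k
  have h2 := pw_pos k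
  rcases le_total (H459R3.NS.N k : ℝ) 1 with h | h
  · have h3 : pw k ≤ 4 := by linarith
    have h4 : pw k ^ n ≤ 4 ^ n := pow_le_pow_left₀ h2.le h3 n
    have h5 : (0 : ℝ) ≤ 4 ^ n * (H459R3.NS.N k : ℝ) ^ n := by positivity
    calc pw k ^ n ≤ 4 ^ n := h4
      _ ≤ 4 ^ n + 4 ^ n * (H459R3.NS.N k : ℝ) ^ n := by linarith
      _ = _ := by ring
  · have h3 : pw k ≤ 4 * H459R3.NS.N k := by linarith
    have h4 : pw k ^ n ≤ (4 * (H459R3.NS.N k : ℝ)) ^ n := pow_le_pow_left₀ h2.le h3 n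
    rw [mul_pow] at h4
    have h5 : (0 : ℝ) ≤ 4 ^ n := by positivity
    calc pw k ^ n ≤ 4 ^ n * (H459R3.NS.N k : ℝ) ^ n := h4
      _ ≤ 4 ^ n + 4 ^ n * (H459R3.NS.N k : ℝ) ^ n := by linarith
      _ = _ := by ring

variable {ν T : ℝ} {u : ℝ → R3 → R3} {p : ℝ → R3 → ℝ}

section

variable (h : H459R3.NS.IsSol ν T u p)

include h

/-- Uniform decay. -/
lemma fa_unif {T' : ℝ} (hT : T' < T) (n : ℕ) :
    ∃ C, ∀ t ∈ Icc 0 T', ∀ k, pw k ^ n * ‖fa (u t) k‖ ≤ C := by
  choose A hA using fun i => unif_pow (f := fun s x => u s x i) (h.smooth_c i) (fun t ht => h.sp ht i) hT 0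
  choose B hB using fun i => unif_pow (f := fun s x => u s x i) (h.smooth_c i) (fun t ht => h.sp ht i) hT n
  refine ⟨4 ^ n * ∑ i, (A i + B i), fun t ht k => ?_⟩
  have h1 : ‖fa (u t) k‖ ≤ ∑ i, ‖fa (u t) k i‖ := norm_le_sum _
  have hp := pw_pow_le k n
  have hp0 : 0 ≤ pw k ^ n := pow_nonneg (pw_pos k).le n
  calc pw k ^ n * ‖fa (u t) k‖ ≤ pw k ^ n * ∑ i, ‖fa (u t) k i‖ := mul_le_mul_of_nonneg_left h1 hp0
    _ ≤ (4 ^ n * (1 + (H459R3.NS.N k : ℝ) ^ n)) * ∑ i, ‖fa (u t) k i‖ :=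
        mul_le_mul_of_nonneg_right hp (Finset.sum_nonneg fun _ _ => norm_nonneg _)
    _ = 4 ^ n * ∑ i, ((H459R3.NS.N k : ℝ) ^ 0 * ‖fa (u t) k i‖ + (H459R3.NS.N k : ℝ) ^ n * ‖fa (u t) k i‖) := by
        rw [mul_assoc, Finset.mul_sum]
        congr 1
        refine Finset.sum_congr rfl fun i _ => ?_
        ring
    _ ≤ 4 ^ n * ∑ i, (A i + B i) := by
        refine mul_le_mul_of_nonneg_left (Finset.sum_le_sum fun i _ => ?_) (by positivity)
        exact add_le_add (hA i t ht k) (hB i t ht k)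

lemma fa_sn {t : ℝ} (ht : t ∈ Ico 0 T) : SN (fa (u t)) := by
  unfold SN
  refine Summable.of_nonneg_of_le (fun _ => norm_nonneg _) (fun k => norm_le_sum _) ?_
  exact summable_sum fun i _ => (H459R3.NS.rap_fr (h.sp ht i)).summable.norm

lemma fa_div {t : ℝ} (ht : t ∈ Ico 0 T) (k : K) : dt k (fa (u t) k) = 0 :=
  H459R3.NS.fr_div (v := fun i x => u t x i) (fun i => h.sp ht i) (h.divfree t ht) k

/-- The evolution of the Fourier coefficients. -/
lemma fa_ode {t : ℝ} (ht : t ∈ Ioo 0 T) (k : K) :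
    HasDerivAt (fun s => fa (u s) k) (RH (4 * Real.pi ^ 2 * ν) (fa (u t)) k) t := by
  have hI : t ∈ Ico 0 T := ⟨ht.1.le, ht.2⟩
  set a := fa (u t) with ha
  set P := H459R3.NS.fr (p t) k with hP
  have raw : ∀ i, HasDerivAt (fun s => fa (u s) k i)
      (ν * (-(((2 * Real.pi) ^ 2 * ∑ j, (k j : ℝ) ^ 2 : ℝ) : ℂ) * a k i)
        - (∑ j, (2 * Real.pi * Complex.I * (k j : ℂ)) * cv a a k j i)
        - (2 * Real.pi * Complex.I * (k i : ℂ)) * P) t := fun i => ode_raw h ht k i
  have hq : ∑ j, (k j : ℝ) ^ 2 = qk k := rfl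
  rw [hq] at raw
  refine hasDerivAt_pi.2 fun i => (raw i).congr_deriv ?_
  by_cases hk : k = 0
  · have q0 : qk k = 0 := by rw [hk]; exact sq_zero
    have b0 : Bf a a k i = 0 := by rw [hk, Bf_zero]; rfl
    unfold RH
    rw [Pi.add_apply, Pi.smul_apply, b0, q0]
    rw [hk]
    simp
  · -- the divergence vanishes
    have hz : HasDerivAt (fun s => ∑ i, (k i : ℂ) * fa (u s) k i)
        (∑ i, (k i : ℂ) * (ν * (-(((2 * Real.pi) ^ 2 * qk k : ℝ) : ℂ) * a k i)
        - (∑ j, (2 * Real.pi * Complex.I * (k j : ℂ)) * cv a a k j i)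
        - (2 * Real.pi * Complex.I * (k i : ℂ)) * P)) t :=
      HasDerivAt.fun_sum fun i _ => (raw i).const_mul _
    have hz' : HasDerivAt (fun s => ∑ i, (k i : ℂ) * fa (u s) k i) 0 t := by
      refine (hasDerivAt_const t (0 : ℂ)).congr_of_eventuallyEq ?_
      filter_upwards [Ioo_mem_nhds ht.1 ht.2] with s hs
      exact fa_div h ⟨hs.1.le, hs.2⟩ k
    have e0 := hz.unique hz'
    have hd := fa_div h hI k
    rw [← ha] at hd
    have e1 : ∑ i, (k i : ℂ) * ((∑ j, (2 * Real.pi * Complex.I * (k j : ℂ)) * cv a a k j i)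
      + (2 * Real.pi * Complex.I * (k i : ℂ)) * P) = 0 := by
      have e2 : ∑ i, (k i : ℂ) * (ν * (-(((2 * Real.pi) ^ 2 * qk k : ℝ) : ℂ) * a k i)
        - (∑ j, (2 * Real.pi * Complex.I * (k j : ℂ)) * cv a a k j i)
        - (2 * Real.pi * Complex.I * (k i : ℂ)) * P)
        = (ν * (-(((2 * Real.pi) ^ 2 * qk k : ℝ) : ℂ))) * dt k (a k)
          - ∑ i, (k i : ℂ) * ((∑ j, (2 * Real.pi * Complex.I * (k j : ℂ)) * cv a a k j i)
      + (2 * Real.pi * Complex.I * (k i : ℂ)) * P) := by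
        unfold dt
        rw [Finset.mul_sum, ← Finset.sum_sub_distrib]
        exact Finset.sum_congr rfl fun i _ => by ring
      rw [e2, hd, mul_zero, zero_sub, neg_eq_zero] at e0
      exact e0
    have e3 := elim hk P e1 i
    unfold RH
    rw [Pi.add_apply, Pi.smul_apply, ← e3, Complex.real_smul]
    push_cast
    ring

lemma fa_cont (k : K) : ContinuousOn (fun s => fa (u s) k) (Ico 0 T) :=
  continuousOn_pi.2 fun i => fr_cont (f := fun s x => u s x i) (h.smooth_c i) k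

end

/-- The mean. -/
noncomputable def mean (v : R3 → R3) (i : Fin 3) : ℝ := ∫ x in H459R3.NS.cube, v x i

lemma fa_zero (v : R3 → R3) (i : Fin 3) : fa v 0 i = (mean v i : ℂ) := by
  unfold fa mean H459R3.NS.fr H459R3.NS.fc
  rw [← integral_complex_ofReal]
  congr 1
  funext x
  rw [neg_zero, H459R3.NS.ee_zero, one_mul]

/-- The mean is constant. -/
lemma mean_const (h : H459R3.NS.IsSol ν T u p) {t : ℝ} (ht : t ∈ Ico 0 T) : mean (u t) = mean (u 0) := by
  funext i
  rcases ht.1.eq_or_lt with h0 | h0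
  · rw [← h0]
  have e : ∀ s, mean (u s) i = (fa (u s) 0 i).re := fun s => by rw [fa_zero, Complex.ofReal_re]
  have hc : ContinuousOn (fun s => mean (u s) i) (Icc 0 t) := by
    simp only [e]
    have h1 := (continuousOn_pi.1 (fa_cont h 0)) i
    exact (Complex.continuous_re.comp_continuousOn h1).mono fun s hs => ⟨hs.1, hs.2.trans_lt ht.2⟩
  have hd : ∀ s ∈ Ioo 0 t, HasDerivAt (fun s => mean (u s) i) 0 s := by
    intro s hs
    simp only [e]
    have h1 := (hasDerivAt_pi.1 (fa_ode h (t := s) ⟨hs.1, hs.2.trans ht.2⟩ 0)) i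
    have h2 : RH (4 * Real.pi ^ 2 * ν) (fa (u s)) 0 i = 0 := by
      unfold RH
      rw [Pi.add_apply, Pi.smul_apply, Bf_zero, show qk (0 : K) = 0 from sq_zero]
      simp
    rw [h2] at h1
    have h3 : HasDerivAt (fun s => (fa (u s) 0 i).re) (Complex.reCLM 0) s :=
      Complex.reCLM.hasFDerivAt.comp_hasDerivAt s h1
    rwa [map_zero] at h3
  obtain ⟨c, -, hc2⟩ := exists_hasDerivAt_eq_slope (fun s => mean (u s) i) (fun _ => 0) h0 hc hd
  have h4 : (0 : ℝ) = (mean (u t) i - mean (u 0) i) / (t - 0) := hc2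
  rw [eq_comm, div_eq_zero_iff] at h4
  rcases h4 with h4 | h4
  · linarith
  · linarith

lemma wf_zero (m : R3) (t : ℝ) (a : K → C3) : wf m t a 0 = 0 := by simp [wf, a0]

lemma wf_ne (m : R3) (t : ℝ) (a : K → C3) {k : K} (hk : k ≠ 0) : wf m t a k = ph m t k • a k := by
  simp [wf, a0, hk]

/-- The identity for the palinstrophy. -/
lemma palin_eq {v : R3 → R3} (hv : ∀ i, H459R3.NS.SP (fun x => v x i)) (m : R3) (t : ℝ) :
    H459R3.NS.palin v = (2 * Real.pi) ^ 4 * wn (fun k => qk k ^ 2) (wf m t (fa v)) := by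
  unfold H459R3.NS.palin wn
  have e1 : ∀ i, ∫ x in H459R3.NS.cube, H459R3.NS.lap (fun y => v y i) x ^ 2
      = ∑' k, ‖H459R3.NS.fr (H459R3.NS.lap fun y => v y i) k‖ ^ 2 := fun i => by
    rw [← H459R3.NS.n2_fr (hv i).lap, H459R3.NS.n2_sq]
  simp only [e1]
  rw [← Summable.tsum_finsetSum fun i _ => H459R3.NS.summable_sq (H459R3.NS.rap_fr (hv i).lap).summable,
    ← tsum_mul_left]
  refine tsum_congr fun k => ?_
  unfold en2
  rw [Finset.mul_sum, Finset.mul_sum]
  refine Finset.sum_congr rfl fun i _ => ?_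
  rw [fr_lap (hv i)]
  by_cases hk : k = 0
  · subst hk
    simp [show qk (0 : K) = 0 from sq_zero]
  · rw [norm_wf m t _ hk, norm_mul, norm_neg, Complex.norm_real, mul_pow, Real.norm_eq_abs, sq_abs]
    have : ∑ j, (k j : ℝ) ^ 2 = qk k := rfl
    rw [this]
    unfold fa
    ring

theorem t_conv : St_conv := by
  intro ν T u p _ h
  set m := mean (u 0) with hm
  refine ⟨fun t => wf m t (fa (u t)), ⟨?_, ?_, ?_, ?_, ?_⟩, ?_, ?_⟩
  · intro t ht
    refine ⟨?_, ?_, ?_, wf_zero _ _ _⟩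
    · intro n
      obtain ⟨C, hC⟩ := fa_unif h ht.2 n
      refine ⟨C, fun k => le_trans ?_ (hC t ⟨ht.1, le_rfl⟩ k)⟩
      exact mul_le_mul_of_nonneg_left (norm_wf_le _ _ _ _) (pow_nonneg (pw_pos k).le n)
    · intro k i
      by_cases hk : k = 0
      · subst hk
        rw [neg_zero, wf_zero]
        simp
      · rw [wf_ne _ _ _ hk, wf_ne _ _ _ (neg_ne_zero.2 hk), ph_neg]
        simp only [Pi.smul_apply, smul_eq_mul]
        rw [star_mul']
        congr 1
        exact fr_conj _ _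
    · intro k
      by_cases hk : k = 0
      · subst hk
        rw [wf_zero]
        simp [dt]
      · rw [wf_ne _ _ _ hk]
        have h1 := fa_div h ht k
        unfold dt at h1 ⊢
        have : ∀ j, (k j : ℂ) * (ph m t k • fa (u t) k) j = ph m t k * ((k j : ℂ) * fa (u t) k j) := by
          intro j
          simp only [Pi.smul_apply, smul_eq_mul]
          ring
        simp only [this]
        rw [← Finset.mul_sum, h1, mul_zero]
  · intro t _ k hk
    exact absurd (mem_univ k) hk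
  · intro T' hT n
    obtain ⟨C, hC⟩ := fa_unif h hT n
    refine ⟨C, fun t ht k => le_trans ?_ (hC t ht k)⟩
    exact mul_le_mul_of_nonneg_left (norm_wf_le _ _ _ _) (pow_nonneg (pw_pos k).le n)
  · intro k
    by_cases hk : k = 0
    · subst hk
      simp only [wf_zero]
      exact continuousOn_const
    · simp only [wf_ne _ _ _ hk]
      exact (ph_cont m k).continuousOn.smul (fa_cont h k)
  · intro t ht k _
    have hI : t ∈ Ico 0 T := ⟨ht.1.le, ht.2⟩
    by_cases hk : k = 0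
    · subst hk
      simp only [wf_zero]
      have : RH (4 * Real.pi ^ 2 * ν) (wf m t (fa (u t))) 0 = 0 := by
        unfold RH
        rw [Bf_zero, wf_zero, smul_zero, add_zero]
      rw [this]
      exact hasDerivAt_const _ _
    · simp only [wf_ne _ _ _ hk]
      have h1 := (ph_deriv m t k).smul (fa_ode h ht k)
      refine h1.congr_deriv ?_
      have h0 : fa (u t) 0 = fun j => (m j : ℂ) := by
        funext j
        rw [fa_zero, mean_const h hI]
      unfold RH
      rw [Bf_wf, Bf_mean (fa_sn h hI) hk (fa_div h hI k), wf_ne _ _ _ hk, h0]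
      funext i
      simp only [Pi.add_apply, Pi.smul_apply, Pi.sub_apply, smul_eq_mul, Complex.real_smul]
      push_cast
      ring
  · intro t _ k hk i
    exact norm_wf _ _ _ hk i
  · intro t ht
    exact palin_eq (fun i => h.sp ht i) m t

end Pool.Agent.Y710.NS.Cnv
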