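import Pool.Agent.Y6.Stm4

/-!
Passage from smooth periodic solutions of the Navier-Stokes equations to the Fourier side, part 1:
analysis.
-/

open MeasureTheory Set Filter Topology
open scoped ContDiff

set_option autoImplicit false

namespace Pool.Agent.Y710.NS.Cnv

open H459R3.NS

/-- The Fourier coefficients in terms of real integrals. -/
lemma fr_re_im {f : V → ℝ} (hf : Continuous f) (k : K3) :
    fr f k = ((∫ x in cube, (ee (-k) x).re * f x : ℝ) : ℂ)
      + ((∫ x in cube, (ee (-k) x).im * f x : ℝ) : ℂ) * Complex.I := by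
  have hr : Continuous fun x => (ee (-k) x).re := Complex.continuous_re.comp (ee_continuous _)
  have hi : Continuous fun x => (ee (-k) x).im := Complex.continuous_im.comp (ee_continuous _)
  have i1 : IntegrableOn (fun x => (((ee (-k) x).re * f x : ℝ) : ℂ)) cube :=
    integrableOn_cube (Complex.continuous_ofReal.comp (hr.mul hf))
  have i2 : IntegrableOn (fun x => (((ee (-k) x).im * f x : ℝ) : ℂ) * Complex.I) cube :=
    integrableOn_cube ((Complex.continuous_ofReal.comp (hi.mul hf)).mul continuous_const)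
  rw [← integral_complex_ofReal, ← integral_complex_ofReal, ← integral_mul_const,
    ← integral_add i1 i2]
  unfold fr fc
  congr 1
  funext x
  have := Complex.re_add_im (ee (-k) x)
  calc ee (-k) x * (f x : ℂ) = (((ee (-k) x).re : ℂ) + ((ee (-k) x).im : ℂ) * Complex.I) * (f x : ℂ) := by
        rw [this]
    _ = _ := by push_cast; ring

section

variable {T : ℝ} {f : ℝ → V → ℝ}

lemma smooth_re (k : K3) (hf : ContDiffOn ℝ ∞ (fun z : ℝ × V => f z.1 z.2) (Ico 0 T ×ˢ univ)) :
    ContDiffOn ℝ ∞ (fun z : ℝ × V => (ee k z.2).re * f z.1 z.2) (Ico 0 T ×ˢ univ) := by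
  have h1 : ContDiff ℝ ∞ fun z : ℝ × V => (ee k z.2).re :=
    Complex.reCLM.contDiff.comp ((ee_contDiff k).comp contDiff_snd)
  exact h1.contDiffOn.mul hf

lemma smooth_im (k : K3) (hf : ContDiffOn ℝ ∞ (fun z : ℝ × V => f z.1 z.2) (Ico 0 T ×ˢ univ)) :
    ContDiffOn ℝ ∞ (fun z : ℝ × V => (ee k z.2).im * f z.1 z.2) (Ico 0 T ×ˢ univ) := by
  have h1 : ContDiff ℝ ∞ fun z : ℝ × V => (ee k z.2).im :=
    Complex.imCLM.contDiff.comp ((ee_contDiff k).comp contDiff_snd)
  exact h1.contDiffOn.mul hf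

/-- The Fourier coefficients are continuous in time. -/
lemma fr_cont (hf : ContDiffOn ℝ ∞ (fun z : ℝ × V => f z.1 z.2) (Ico 0 T ×ˢ univ)) (k : K3) :
    ContinuousOn (fun t => fr (f t) k) (Ico 0 T) := by
  have h1 := continuousOn_int (F := fun s x => (ee (-k) x).re * f s x) (smooth_re (-k) hf).continuousOn
  have h2 := continuousOn_int (F := fun s x => (ee (-k) x).im * f s x) (smooth_im (-k) hf).continuousOn
  refine ContinuousOn.congr (f := fun t => ((∫ x in cube, (ee (-k) x).re * f t x : ℝ) : ℂ)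
      + ((∫ x in cube, (ee (-k) x).im * f t x : ℝ) : ℂ) * Complex.I) ?_
    (fun t ht => fr_re_im (contDiff_slice hf ht).continuous k)
  exact (Complex.continuous_ofReal.comp_continuousOn h1).add
    ((Complex.continuous_ofReal.comp_continuousOn h2).mul continuousOn_const)

/-- Time derivative of the Fourier coefficients. -/
lemma fr_deriv (hf : ContDiffOn ℝ ∞ (fun z : ℝ × V => f z.1 z.2) (Ico 0 T ×ˢ univ)) (k : K3)
    {t : ℝ} (ht : t ∈ Ioo 0 T) : HasDerivAt (fun s => fr (f s) k) (fr (dt f t) k) t := by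
  have d1 := hasDerivAt_int (F := fun s x => (ee (-k) x).re * f s x)
    (mono_Ioo (f := fun s x => (ee (-k) x).re * f s x) (smooth_re (-k) hf) (by norm_cast)) ht
  have d2 := hasDerivAt_int (F := fun s x => (ee (-k) x).im * f s x)
    (mono_Ioo (f := fun s x => (ee (-k) x).im * f s x) (smooth_im (-k) hf) (by norm_cast)) ht
  have hdx : ∀ x, HasDerivAt (fun s => f s x) (dt f t x) t := by
    intro x
    have := hasDerivAt_slice (F := f) (mono_Ioo hf (by norm_cast)) ht x
    rwa [← dt_eq hf ht x] at this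
  have e1 : ∀ x, deriv (fun s => (ee (-k) x).re * f s x) t = (ee (-k) x).re * dt f t x :=
    fun x => ((hdx x).const_mul _).deriv
  have e2 : ∀ x, deriv (fun s => (ee (-k) x).im * f s x) t = (ee (-k) x).im * dt f t x :=
    fun x => ((hdx x).const_mul _).deriv
  simp only [e1] at d1
  simp only [e2] at d2
  have h3 := (d1.ofReal_comp).add ((d2.ofReal_comp).mul_const Complex.I)
  rw [fr_re_im (contDiff_dt hf ht).continuous k]
  refine h3.congr_of_eventuallyEq ?_
  filter_upwards [Ioo_mem_nhds ht.1 ht.2] with s hs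
  exact fr_re_im (contDiff_slice hf ⟨hs.1.le, hs.2⟩).continuous k

/-- Iterated derivatives. -/
lemma smooth_iter (hf : ContDiffOn ℝ ∞ (fun z : ℝ × V => f z.1 z.2) (Ico 0 T ×ˢ univ)) (j : Fin 3)
    (n : ℕ) : ContDiffOn ℝ ∞ (fun z : ℝ × V => (pd j)^[n] (f z.1) z.2) (Ico 0 T ×ˢ univ) := by
  induction n with
  | zero => exact hf
  | succ n ih =>
    have := contDiffOn_pd (f := fun s => (pd j)^[n] (f s)) ih j
    refine this.congr fun z _ => ?_
    rw [Function.iterate_succ_apply']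

lemma unif_fr (hf : ContDiffOn ℝ ∞ (fun z : ℝ × V => f z.1 z.2) (Ico 0 T ×ˢ univ)) {T' : ℝ}
    (hT : T' < T) : ∃ C, ∀ t ∈ Icc 0 T', ∀ k, ‖fr (f t) k‖ ≤ C := by
  have hK : IsCompact (Icc 0 T' ×ˢ cube) := isCompact_Icc.prod isCompact_Icc
  have hsub : Icc 0 T' ×ˢ cube ⊆ Ico 0 T ×ˢ (univ : Set V) :=
    prod_mono (fun s hs => ⟨hs.1, hs.2.trans_lt hT⟩) (subset_univ _)
  obtain ⟨C, hC⟩ := hK.exists_bound_of_continuousOn (hf.continuousOn.mono hsub)
  refine ⟨C, fun t ht k => ?_⟩
  have := cube_finite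
  unfold fr fc
  have h1 : ∀ x ∈ cube, ‖ee (-k) x * (f t x : ℂ)‖ ≤ C := by
    intro x hx
    rw [norm_mul, norm_ee, one_mul, Complex.norm_real]
    exact hC (t, x) ⟨ht, hx⟩
  have h2 := norm_setIntegral_le_of_norm_le_const (μ := volume) (s := cube)
    (f := fun x => ee (-k) x * (f t x : ℂ)) (C := C) (by rw [volume_cube]; exact ENNReal.one_lt_top) h1
  refine h2.trans (le_of_eq ?_)
  rw [measureReal_def, volume_cube]
  simp

/-- Uniform rapid decay. -/
lemma unif_pow (hf : ContDiffOn ℝ ∞ (fun z : ℝ × V => f z.1 z.2) (Ico 0 T ×ˢ univ))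
    (hs : ∀ t ∈ Ico 0 T, SP (f t)) {T' : ℝ} (hT : T' < T) (n : ℕ) :
    ∃ C, ∀ t ∈ Icc 0 T', ∀ k, (N k : ℝ) ^ n * ‖fr (f t) k‖ ≤ C := by
  choose C hC using fun j => unif_fr (f := fun s => (pd j)^[n] (f s)) (smooth_iter hf j n) hT
  refine ⟨∑ j, C j, fun t ht k => ?_⟩
  have hI : t ∈ Ico 0 T := ⟨ht.1, ht.2.trans_lt hT⟩
  have h1 : ∀ j, |(k j : ℝ)| ^ n * ‖fr (f t) k‖ ≤ C j := by
    intro j
    refine le_trans ?_ (hC j t ht k)
    rw [fr_iter (hs t hI), norm_mul, norm_pow]
    gcongr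
    rw [norm_mul, norm_mul, norm_mul, Complex.norm_I, mul_one, Complex.norm_real,
      Real.norm_eq_abs, abs_of_pos Real.pi_pos, Complex.norm_ofNat, Complex.norm_intCast]
    have h0 : 0 ≤ |(k j : ℝ)| := abs_nonneg _
    have := Real.pi_gt_three
    nlinarith
  calc (N k : ℝ) ^ n * ‖fr (f t) k‖ ≤ (∑ j, |(k j : ℝ)| ^ n) * ‖fr (f t) k‖ := by
        gcongr
        exact N_pow_le k n
    _ = ∑ j, |(k j : ℝ)| ^ n * ‖fr (f t) k‖ := Finset.sum_mul _ _ _
    _ ≤ ∑ j, C j := Finset.sum_le_sum fun j _ => h1 j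

end

/-- Products become convolutions. -/
lemma fr_mul {f g : V → ℝ} (hf : SP f) (hg : SP g) (k : K3) :
    fr (fun x => f x * g x) k = ∑' l, fr f l * fr g (k - l) := by
  have h := (integral_ee_S_S (-k) (rap_fr hf).summable (rap_fr hg).summable).tsum_eq
  rw [neg_neg] at h
  rw [h]
  simp only [S_fr hf, S_fr hg]
  unfold fr fc
  congr 1
  funext x
  push_cast
  ring

lemma fr_conj (f : V → ℝ) (k : K3) : fr f (-k) = star (fr f k) := by
  unfold fr fc
  rw [Complex.star_def, ← integral_conj]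
  congr 1
  funext x
  rw [map_mul, Complex.conj_ofReal, ← ee_neg]

lemma fr_lap {f : V → ℝ} (hf : SP f) (k : K3) :
    fr (lap f) k = -(((2 * Real.pi) ^ 2 * ∑ j, (k j : ℝ) ^ 2 : ℝ) : ℂ) * fr f k := by
  have e2 : fr (lap f) k = ∑ j, D j (D j (fr f)) k := by
    unfold lap
    rw [fr_sum fun j _ => (hf.pd j).pd j]
    refine Finset.sum_congr rfl fun j _ => ?_
    rw [fr_pd (hf.pd j), fr_pd hf]
  rw [e2]
  unfold D
  push_cast
  rw [Finset.mul_sum, ← Finset.sum_neg_distrib, Finset.sum_mul]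
  refine Finset.sum_congr rfl fun j _ => ?_
  have := Complex.I_sq
  linear_combination ((2 * Real.pi : ℂ) ^ 2 * (k j : ℂ) ^ 2 * fr f k) * this

section

variable {v : Fin 3 → V → ℝ} (hv : ∀ i, SP (v i)) (hdiv : ∀ x, ∑ i, pd i (v i) x = 0)

include hv hdiv in
lemma fr_conv (i : Fin 3) (k : K3) :
    fr (conv v i) k = ∑ j, (2 * Real.pi * Complex.I * (k j : ℂ)) * ∑' l, fr (v j) l * fr (v i) (k - l) := by
  have e1 : conv v i = fun x => ∑ j, pd j (fun y => v j y * v i y) x := by
    funext x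
    unfold conv
    have : ∀ j, pd j (fun y => v j y * v i y) x = v j x * pd j (v i) x + pd j (v j) x * v i x :=
      fun j => pd_mul (hv j) (hv i) j x
    simp only [this]
    rw [Finset.sum_add_distrib, ← Finset.sum_mul, hdiv, zero_mul, add_zero]
  rw [e1, fr_sum fun j _ => ((hv j).mul (hv i)).pd j]
  refine Finset.sum_congr rfl fun j _ => ?_
  rw [fr_pd ((hv j).mul (hv i)) j, D, fr_mul (hv j) (hv i)]

end

lemma fr_lin {f g h : V → ℝ} (hf : Continuous f) (hg : Continuous g) (hh : Continuous h) (ν : ℝ) (k : K3) :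
    fr (fun x => ν * f x - g x - h x) k = ν * fr f k - fr g k - fr h k := by
  unfold fr fc
  have c : ∀ {q : V → ℝ}, Continuous q → IntegrableOn (fun x => ee (-k) x * (q x : ℂ)) cube :=
    fun hq => integrableOn_cube ((ee_continuous _).mul (Complex.continuous_ofReal.comp hq))
  have i12 : IntegrableOn (fun x => (ν : ℂ) * (ee (-k) x * (f x : ℂ)) - ee (-k) x * (g x : ℂ)) cube :=
    ((c hf).const_mul _).sub (c hg)
  rw [← integral_const_mul, ← integral_sub ((c hf).const_mul _) (c hg), ← integral_sub i12 (c hh)]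
  congr 1
  funext x
  push_cast
  ring

/-- The equation for the Fourier coefficients, before the elimination of the pressure. -/
lemma ode_raw {ν T : ℝ} {u : ℝ → V → V} {p : ℝ → V → ℝ} (h : IsSol ν T u p) {t : ℝ} (ht : t ∈ Ioo 0 T)
    (k : K3) (i : Fin 3) :
    HasDerivAt (fun s => fr (fun x => u s x i) k)
      (ν * (-(((2 * Real.pi) ^ 2 * ∑ j, (k j : ℝ) ^ 2 : ℝ) : ℂ) * fr (fun x => u t x i) k)
        - (∑ j, (2 * Real.pi * Complex.I * (k j : ℂ)) *
            ∑' l, fr (fun x => u t x j) l * fr (fun x => u t x i) (k - l))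
        - (2 * Real.pi * Complex.I * (k i : ℂ)) * fr (p t) k) t := by
  have hI : t ∈ Ico 0 T := ⟨ht.1.le, ht.2⟩
  have h1 := fr_deriv (f := fun s x => u s x i) (h.smooth_c i) k ht
  refine h1.congr_deriv ?_
  have hsp : ∀ i, SP (fun y => u t y i) := fun i => h.sp hI i
  have e : dt (fun s x => u s x i) t = fun x => ν * lap (fun y => u t y i) x
      - conv (fun i y => u t y i) i x - pd i (p t) x := funext fun x => h.dt_eq ht i x
  rw [e, fr_lin (hsp i).lap.cont (sp_conv (v := fun i y => u t y i) hsp i).cont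
    ((h.sp_p hI).pd i).cont, fr_lap (hsp i), fr_conv (v := fun i y => u t y i) hsp (h.divfree t hI),
    fr_pd (h.sp_p hI), D]

end Pool.Agent.Y710.NS.Cnv
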