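import Pool.Agent.Y710.NS.Conv

/-!
Passage from smooth periodic solutions of the Navier-Stokes equations to the Fourier side, part 2.
-/

open MeasureTheory Set Filter Topology
open scoped ContDiff

set_option autoImplicit false

namespace Pool.Agent.Y710.NS.Cnv

open Pool.Agent.H356R3.NS hiding K sq
open Pool.Agent.Y6

/-- The Fourier coefficients of a field. -/
noncomputable def fa (v : R3 → R3) (k : K) : C3 := fun i => H459R3.NS.fr (fun x => v x i) k

lemma qk_cast (k : K) : ((qk k : ℝ) : ℂ) = ∑ i, (k i : ℂ) * (k i : ℂ) := by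
  unfold qk Pool.Agent.H356R3.NS.sq
  push_cast
  exact Finset.sum_congr rfl fun i _ => by ring

section alg

variable {a : K → C3} {k : K} {P : ℂ} {A' : C3}

/-- Elimination of the pressure. -/
lemma elim (hk : k ≠ 0) (P : ℂ) (hP : ∑ i, (k i : ℂ) * ((∑ j, (2 * Real.pi * Complex.I * (k j : ℂ)) * cv a a k j i)
      + (2 * Real.pi * Complex.I * (k i : ℂ)) * P) = 0) (i : Fin 3) :
    -(∑ j, (2 * Real.pi * Complex.I * (k j : ℂ)) * cv a a k j i)
      - (2 * Real.pi * Complex.I * (k i : ℂ)) * P = Bf a a k i := by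
  have hq : ((qk k : ℝ) : ℂ) ≠ 0 := by exact_mod_cast (sq_pos hk).ne'
  have hpi : (2 * (Real.pi : ℂ) * Complex.I) ≠ 0 := by
    have : (Real.pi : ℂ) ≠ 0 := by exact_mod_cast Real.pi_ne_zero
    simp [this, Complex.I_ne_zero]
  have h1 : ((qk k : ℝ) : ℂ) * P = -∑ j, ∑ m, (k j : ℂ) * (k m : ℂ) * cv a a k j m := by
    have e : ∑ i, (k i : ℂ) * ((∑ j, (2 * Real.pi * Complex.I * (k j : ℂ)) * cv a a k j i)
      + (2 * Real.pi * Complex.I * (k i : ℂ)) * P)
      = (2 * Real.pi * Complex.I) * ((∑ j, ∑ m, (k j : ℂ) * (k m : ℂ) * cv a a k j m)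
        + ((qk k : ℝ) : ℂ) * P) := by
      rw [qk_cast, Finset.sum_comm, mul_add, Finset.sum_mul, Finset.mul_sum, Finset.mul_sum,
        ← Finset.sum_add_distrib]
      refine Finset.sum_congr rfl fun i _ => ?_
      rw [mul_add, Finset.mul_sum, Finset.mul_sum]
      congr 1
      · exact Finset.sum_congr rfl fun j _ => by ring
      · ring
    rw [e] at hP
    have := (mul_eq_zero.1 hP).resolve_left hpi
    linear_combination this
  have h2 : P = -(∑ j, ∑ m, (k j : ℂ) * (k m : ℂ) * cv a a k j m) / ((qk k : ℝ) : ℂ) := by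
    rw [eq_div_iff hq, ← h1]
    ring
  have h3 : Bf a a k i = -(∑ j, (2 * Real.pi * Complex.I * (k j : ℂ)) * cv a a k j i)
      + (2 * Real.pi * Complex.I * (k i : ℂ)) *
        ((∑ j, ∑ m, (k j : ℂ) * (k m : ℂ) * cv a a k j m) / ((qk k : ℝ) : ℂ)) := by
    unfold Bf
    rw [Finset.sum_div, Finset.mul_sum, ← Finset.sum_neg_distrib, ← Finset.sum_add_distrib]
    refine Finset.sum_congr rfl fun j _ => ?_
    rw [Finset.sum_div, Finset.mul_sum]
    have e : ∀ m, coef k i j m * cv a a k j m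
        = -((2 * Real.pi * Complex.I * (k j : ℂ)) * (if m = i then cv a a k j m else 0))
          + (2 * Real.pi * Complex.I * (k i : ℂ)) * ((k j : ℂ) * (k m : ℂ) * cv a a k j m / ((qk k : ℝ) : ℂ)) := by
      intro m
      unfold coef qk
      split_ifs <;> ring
    simp only [e]
    rw [Finset.sum_add_distrib, Finset.sum_neg_distrib, ← Finset.mul_sum]
    simp
  rw [h3, h2]
  ring

/-- The field without its mean. -/
noncomputable def a0 (a : K → C3) (k : K) : C3 := if k = 0 then 0 else a k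

lemma a0_add (a : K → C3) : a = a0 a + Sg 0 (a 0) := by
  funext k
  by_cases h : k = 0
  · subst h
    simp [a0, Sg]
  · simp [a0, Sg, h]

lemma SN_a0 (h : SN a) : SN (a0 a) := by
  unfold SN at *
  refine h.of_nonneg_of_le (fun _ => norm_nonneg _) fun k => ?_
  unfold a0
  split_ifs
  · simp
  · exact le_rfl

lemma cv_Sg_right (x : K → C3) (v : C3) (k : K) (i j : Fin 3) : cv x (Sg 0 v) k i j = x k i * v j := by
  unfold cv
  rw [tsum_eq_single k]
  · simp [Sg]
  · intro l hl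
    have : k - l ≠ 0 := sub_ne_zero.2 (Ne.symm hl)
    simp [Sg, this]

lemma cv_Sg_left (y : K → C3) (v : C3) (k : K) (i j : Fin 3) : cv (Sg 0 v) y k i j = v i * y k j := by
  unfold cv
  rw [tsum_eq_single 0]
  · simp [Sg]
  · intro l hl
    simp [Sg, hl]

lemma sum_coef (k : K) (x y : C3) (hy : dt k y = 0) (i : Fin 3) :
    ∑ j, ∑ m, coef k i j m * (x j * y m) = -(2 * Real.pi * Complex.I) * dt k x * y i := by
  have h1 : ∀ j, ∑ m, coef k i j m * (x j * y m)
      = -(2 * Real.pi * Complex.I) * ((k j : ℂ) * x j) * (y i - (k i : ℂ) / ((qk k : ℝ) : ℂ) * dt k y) := by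
    intro j
    have e : ∀ m, coef k i j m * (x j * y m) = -(2 * Real.pi * Complex.I) * ((k j : ℂ) * x j) *
        ((if m = i then y m else 0) - (k i : ℂ) / ((qk k : ℝ) : ℂ) * ((k m : ℂ) * y m)) := by
      intro m
      unfold coef qk
      split_ifs <;> ring
    simp only [e]
    rw [← Finset.mul_sum, Finset.sum_sub_distrib, ← Finset.mul_sum]
    unfold dt
    simp
  simp only [h1, hy, mul_zero, sub_zero]
  rw [← Finset.sum_mul, ← Finset.mul_sum]
  rfl

/-- Removal of the mean. -/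
lemma Bf_mean (ha : SN a) (hk : k ≠ 0) (hd : dt k (a k) = 0) :
    Bf a a k = Bf (a0 a) (a0 a) k - (2 * Real.pi * Complex.I * dt k (a 0)) • a k := by
  have h0 := SN_a0 ha
  have hS := SN_Sg 0 (a 0)
  have e : Bf a a = Bf (a0 a) (a0 a) + Bf (a0 a) (Sg 0 (a 0)) + (Bf (Sg 0 (a 0)) (a0 a)
      + Bf (Sg 0 (a 0)) (Sg 0 (a 0))) := by
    conv_lhs => rw [a0_add a]
    rw [Bf_add_left h0 hS (h0.add hS), Bf_add_right h0 h0 hS, Bf_add_right hS h0 hS]
  have ek : a0 a k = a k := if_neg hk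
  have e1 : Bf (a0 a) (Sg 0 (a 0)) k = 0 := by
    funext i
    unfold Bf
    simp only [cv_Sg_right, ek]
    have : ∀ j m, coef k i j m * (a k j * a 0 m) = (2 * Real.pi * Complex.I) * ((k j : ℂ) * a k j) *
        (-((if m = i then a 0 m else 0) - (k i : ℂ) * (k m : ℂ) / ((qk k : ℝ) : ℂ) * a 0 m)) := by
      intro j m
      unfold coef qk
      split_ifs <;> ring
    simp only [this]
    simp only [← Finset.mul_sum]
    rw [← Finset.sum_mul, ← Finset.mul_sum]
    unfold dt at hd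
    rw [hd]
    simp
  have e2 : Bf (Sg 0 (a 0)) (a0 a) k = -(2 * Real.pi * Complex.I * dt k (a 0)) • a k := by
    funext i
    unfold Bf
    simp only [cv_Sg_left, ek]
    rw [sum_coef k _ _ hd]
    simp only [Pi.smul_apply, smul_eq_mul]
    ring
  have e3 : Bf (Sg 0 (a 0)) (Sg 0 (a 0)) k = 0 := by
    rw [Bf_Sg]
    simp [Sg, hk]
  rw [e]
  simp only [Pi.add_apply]
  rw [e1, e2, e3]
  funext i
  simp only [Pi.add_apply, Pi.smul_apply, Pi.sub_apply, smul_eq_mul, Pi.zero_apply]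
  ring

/-- The phases. -/
noncomputable def ph (m : R3) (t : ℝ) (k : K) : ℂ :=
  Complex.exp (2 * Real.pi * Complex.I * (t * ∑ j, (k j : ℂ) * (m j : ℂ)))

lemma ph_eq (m : R3) (t : ℝ) (k : K) :
    ph m t k = Complex.exp (((2 * Real.pi * (t * ∑ j, (k j : ℝ) * m j) : ℝ) : ℂ) * Complex.I) := by
  unfold ph
  congr 1
  push_cast
  ring

lemma norm_ph (m : R3) (t : ℝ) (k : K) : ‖ph m t k‖ = 1 := by
  rw [ph_eq, Complex.norm_exp_ofReal_mul_I]

lemma ph_add (m : R3) (t : ℝ) (k l : K) : ph m t (k + l) = ph m t k * ph m t l := by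
  unfold ph
  rw [← Complex.exp_add]
  congr 1
  have : ∑ j, (((k + l) j : ℤ) : ℂ) * (m j : ℂ) = ∑ j, (k j : ℂ) * (m j : ℂ) + ∑ j, (l j : ℂ) * (m j : ℂ) := by
    rw [← Finset.sum_add_distrib]
    refine Finset.sum_congr rfl fun j _ => ?_
    simp only [Pi.add_apply, Int.cast_add]
    ring
  rw [this]
  ring

lemma ph_neg (m : R3) (t : ℝ) (k : K) : ph m t (-k) = star (ph m t k) := by
  unfold ph
  rw [Complex.star_def, ← Complex.exp_conj]
  congr 1
  have h1 : ∀ n : ℤ, (starRingEnd ℂ) (n : ℂ) = n := fun n => by simp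
  simp only [map_mul, map_sum, Complex.conj_ofReal, Complex.conj_I, map_ofNat, h1, Pi.neg_apply,
    Int.cast_neg, neg_mul, Finset.sum_neg_distrib]
  ring

lemma ph_deriv (m : R3) (t : ℝ) (k : K) :
    HasDerivAt (fun t => ph m t k) (2 * Real.pi * Complex.I * dt k (fun j => (m j : ℂ)) * ph m t k) t := by
  unfold ph
  have h1 : HasDerivAt (fun t : ℝ => (t : ℂ)) 1 t := Complex.ofRealCLM.hasDerivAt
  have h2 := ((h1.mul_const (∑ j, (k j : ℂ) * (m j : ℂ))).const_mul (2 * Real.pi * Complex.I)).cexp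
  refine h2.congr_deriv ?_
  unfold dt
  ring

lemma ph_cont (m : R3) (k : K) : Continuous fun t => ph m t k :=
  continuous_iff_continuousAt.2 fun t => (ph_deriv m t k).continuousAt

/-- The field in the moving frame. -/
noncomputable def wf (m : R3) (t : ℝ) (a : K → C3) (k : K) : C3 := ph m t k • a0 a k

lemma cv_wf (m : R3) (t : ℝ) (a : K → C3) (k : K) (i j : Fin 3) :
    cv (wf m t a) (wf m t a) k i j = ph m t k * cv (a0 a) (a0 a) k i j := by
  unfold cv
  rw [← tsum_mul_left]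
  refine tsum_congr fun l => ?_
  have h1 : ph m t k = ph m t l * ph m t (k - l) := by
    rw [← ph_add]
    congr 1
    abel
  unfold wf
  simp only [Pi.smul_apply, smul_eq_mul]
  rw [h1]
  ring

lemma Bf_wf (m : R3) (t : ℝ) (a : K → C3) (k : K) :
    Bf (wf m t a) (wf m t a) k = ph m t k • Bf (a0 a) (a0 a) k := by
  funext i
  unfold Bf
  simp only [cv_wf, Pi.smul_apply, smul_eq_mul]
  rw [Finset.mul_sum]
  refine Finset.sum_congr rfl fun j _ => ?_
  rw [Finset.mul_sum]
  exact Finset.sum_congr rfl fun l _ => by ring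

lemma norm_wf (m : R3) (t : ℝ) (a : K → C3) {k : K} (hk : k ≠ 0) (i : Fin 3) :
    ‖wf m t a k i‖ = ‖a k i‖ := by
  unfold wf a0
  rw [if_neg hk, Pi.smul_apply, smul_eq_mul, norm_mul, norm_ph, one_mul]

lemma norm_wf_le (m : R3) (t : ℝ) (a : K → C3) (k : K) : ‖wf m t a k‖ ≤ ‖a k‖ := by
  unfold wf a0
  rw [norm_smul, norm_ph, one_mul]
  split_ifs
  · simp
  · exact le_rfl

end alg

end Pool.Agent.Y710.NS.Cnv
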