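import Pool.Agent.Y8.Stm5

/-!
Coverings of the singular points by moving balls; the singular points at a fixed time.
-/

open MeasureTheory Set Metric
open scoped ContDiff NNReal

namespace Pool.Agent.Y710.NS

open H459R3.NS W221.NS Pool.Agent.Y8

theorem rr_pos (m : ℕ) : 0 < rr m := by
  unfold rr
  positivity

theorem rr_le_one (m : ℕ) : rr m ≤ 1 := by
  unfold rr
  exact pow_le_one₀ (by norm_num) (by norm_num)

theorem rr_sq (m : ℕ) : (1 : ℝ) / 4 ^ m = rr m ^ 2 := by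
  unfold rr
  rw [← pow_mul, mul_comm m 2, pow_mul, show ((1 : ℝ) / 2) ^ 2 = 1 / 4 by norm_num, one_div_pow]

/-- The displacement of a path. -/
theorem disp {T r B C : ℝ} {G : Set ℝ} {u : ℝ → V → V} {p : ℝ → V → ℝ} {X Y : ℝ → V}
    (h : FPath T r B C G u p X Y) {s t : ℝ} (hs : s ∈ Ioo 0 T) (ht : t ∈ Ioo 0 T) :
    ‖X t - X s‖ ≤ B * |t - s| := by
  have h1 := (convex_Ioo (0 : ℝ) T).norm_image_sub_le_of_norm_hasDerivWithin_le
    (fun τ hτ => (h.hd τ hτ).hasDerivWithinAt) h.bd hs ht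
  rwa [Real.norm_eq_abs] at h1

/-- The total speed in a parabolic time interval. -/
theorem speed {K E r : ℝ} (hK : 0 ≤ K) (hr : 0 < r) (hr1 : r ≤ 1) :
    (K * |E| / √(r ^ 3) + 1) * r ^ 2 ≤ K * |E| + 1 := by
  have h1 : r ^ 2 ≤ √(r ^ 3) := by
    apply Real.le_sqrt_of_sq_le
    rw [← pow_mul]
    exact pow_le_pow_of_le_one hr.le hr1 (by norm_num)
  have h2 : 0 < √(r ^ 3) := Real.sqrt_pos.2 (by positivity)
  have h3 : K * |E| / √(r ^ 3) * r ^ 2 ≤ K * |E| := by
    rw [div_mul_eq_mul_div, div_le_iff₀ h2]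
    exact mul_le_mul_of_nonneg_left h1 (by positivity)
  have h4 : r ^ 2 ≤ 1 := pow_le_one₀ hr.le hr1
  nlinarith

theorem speed2 {K E : ℝ} (hK : 0 ≤ K) (m : ℕ) :
    K * |E| / √(rr m ^ 3) + 1 ≤ (K * |E| + 1) * 4 ^ m := by
  have hr := rr_pos m
  have h1 : rr m ^ 2 ≤ √(rr m ^ 3) := by
    apply Real.le_sqrt_of_sq_le
    rw [← pow_mul]
    exact pow_le_pow_of_le_one hr.le (rr_le_one m) (by norm_num)
  have h2 : 0 < √(rr m ^ 3) := Real.sqrt_pos.2 (by positivity)
  have h3 : K * |E| / √(rr m ^ 3) ≤ K * |E| * 4 ^ m := by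
    rw [div_le_iff₀ h2]
    have h4 : 1 ≤ 4 ^ m * √(rr m ^ 3) := by
      calc (1 : ℝ) = 4 ^ m * rr m ^ 2 := by
            rw [← rr_sq]
            field_simp
        _ ≤ _ := mul_le_mul_of_nonneg_left h1 (by positivity)
    have h5 : 0 ≤ K * |E| := by positivity
    nlinarith
  have h6 : (1 : ℝ) ≤ 4 ^ m := one_le_pow₀ (by norm_num)
  nlinarith

theorem enst_nn (v : V → V) : 0 ≤ enstrophy v := by
  unfold enstrophy
  exact Finset.sum_nonneg fun i _ => Finset.sum_nonneg fun j _ => integral_nonneg fun x => sq_nonneg _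

theorem enst_mono {ν T E D : ℝ} {G : Set ℝ} {u : ℝ → V → V} {p : ℝ → V → ℝ}
    (h : Turb ν T E D G u p) {a b c d : ℝ} (ha : 0 ≤ a) (hab : a ≤ b) (hcd : c ≤ d) (hd : d ≤ T) :
    ∫ t in Ioo b c, enstrophy (u t) ≤ ∫ t in Ioo a d, enstrophy (u t) := by
  have h1 : IntegrableOn (fun t => enstrophy (u t)) (Ioo 0 T) := by
    have h2 : IntegrableOn (fun t => enstrophy (u t)) (Ioo 0 T \ G) :=
      IntegrableOn.of_measure_zero h.fullG
    have h3 := h.enst_int.union h2
    exact h3.mono_set (by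
      intro x hx
      by_cases hG : x ∈ G
      · exact Or.inl hG
      · exact Or.inr ⟨hx, hG⟩)
  refine setIntegral_mono_set (h1.mono_set (Ioo_subset_Ioo ha hd))
    (ae_of_all _ fun t => enst_nn _) (Ioo_subset_Ioo hab hcd).eventuallyLE

theorem cube_norm {x : V} (hx : x ∈ cube) : ‖x‖ ≤ 1 := by
  rw [pi_norm_le_iff_of_nonneg (by norm_num)]
  intro i
  rw [Real.norm_eq_abs, abs_le]
  have h1 := hx.1 i
  have h2 := hx.2 i
  simp only [Pi.zero_apply, Pi.one_apply] at h1 h2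
  constructor <;> linarith

theorem vol_ball (x : V) {r : ℝ} (hr : 0 < r) : volume (ball x r) = ENNReal.ofReal ((2 * r) ^ 3) := by
  rw [Real.volume_pi_ball x hr, Fintype.card_fin]

/-- The singular points at a fixed time. -/
theorem t_SLC : S_WFL → S_CRIT2 → S_WMARK → S_SLC := by
  rintro ⟨K, hK, hW⟩ ⟨ε, hε, hC2⟩ ⟨C₁, hC₁, hM⟩ E
  refine ⟨8 * (C₁ * (4 + K * |E|) ^ 3 / ε), by positivity, ?_⟩
  intro T D G u p hT m t₀ hm h0 h1 S hS hsep
  set r := rr m with hr_def
  have hr : 0 < r := rr_pos m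
  have hr1 : r ≤ 1 := rr_le_one m
  obtain ⟨C', -, hW'⟩ := hW E r hr hr1
  have hr2 : 0 < r ^ 2 := by positivity
  obtain ⟨X, Y, hX⟩ := hW' T D G u p hT t₀ ⟨by linarith, by linarith⟩
  set B := K * |E| / √(r ^ 3) + 1 with hB_def
  have hB : 0 ≤ B := by positivity
  have hBr : B * r ^ 2 ≤ K * |E| + 1 := speed hK.le hr hr1
  set s := t₀ + r ^ 2 / 32 with hs_def
  have hsT : s < T := by rw [hs_def]; linarith
  have hrs : r ^ 2 < s := by rw [hs_def]; linarith
  have hmark := hM T E D G u p hT m s t₀ hrs hsT ⟨by rw [hs_def]; linarith, by rw [hs_def]; linarith⟩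
    X Y B C' hB hX 2 ε (by norm_num) hε
  set A := {y ∈ ball (0 : V) 2 | ε ≤ ∫ t in Ioo (-1 : ℝ) 0,
            FF m (u (s + rr m ^ 2 * t)) (X (s + rr m ^ 2 * t) y)} with hA_def
  have hsub : ⋃ x ∈ S, ball x (r / 4) ⊆ A := by
    intro y hy
    simp only [mem_iUnion, exists_prop] at hy
    obtain ⟨x, hxS, hy⟩ := hy
    rw [mem_ball, dist_eq_norm] at hy
    refine ⟨?_, ?_⟩
    · rw [mem_ball, dist_zero_right]
      have h2 := cube_norm (hS x hxS).1
      have h3 : ‖y‖ ≤ ‖y - x‖ + ‖x‖ := by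
        have := norm_add_le (y - x) x
        rwa [sub_add_cancel] at this
      linarith
    · refine hC2 T E D G u p hT m s hm hrs hsT (fun t => X t y) (fun t => Y t y) B C' (hX.path y)
        t₀ ⟨by rw [hs_def]; linarith, by rw [hs_def]; linarith⟩ x ?_ (hS x hxS).2
      rw [mem_ball, dist_eq_norm]
      show ‖x - X t₀ y‖ < r / 4
      rw [hX.lab y, norm_sub_rev]
      exact hy
  have hdis : (S : Set V).PairwiseDisjoint (fun x => ball x (r / 4)) := by
    intro x hx y hy hxy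
    apply ball_disjoint_ball
    rw [dist_eq_norm]
    have := hsep x hx y hy hxy
    linarith
  have hvol : volume (⋃ x ∈ S, ball x (r / 4)) = ENNReal.ofReal (S.card * (r / 2) ^ 3) := by
    rw [measure_biUnion_finset hdis (fun x _ => measurableSet_ball)]
    have h2 : ∀ x ∈ S, volume (ball x (r / 4)) = ENNReal.ofReal ((r / 2) ^ 3) := by
      intro x _
      rw [vol_ball x (by positivity)]
      congr 1
      ring
    rw [Finset.sum_congr rfl h2, Finset.sum_const, nsmul_eq_mul,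
      ENNReal.ofReal_mul (by positivity), ENNReal.ofReal_natCast]
  have h3 : ENNReal.ofReal (S.card * (r / 2) ^ 3) ≤ _ := hvol ▸ (measure_mono hsub).trans hmark
  set I := ∫ t in Ioo (s - rr m ^ 2) s, enstrophy (u t) with hI_def
  have hI0 : 0 ≤ I := setIntegral_nonneg measurableSet_Ioo fun t _ => enst_nn _
  have hI : I ≤ ∫ t in Ioo (t₀ - r ^ 2) (t₀ + r ^ 2), enstrophy (u t) :=
    enst_mono hT (by linarith) (by rw [hs_def, ← hr_def]; linarith) (by rw [hs_def]; linarith)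
      (by linarith)
  have h4 := (ENNReal.ofReal_le_ofReal_iff (by positivity)).1 h3
  have h5 : ((m : ℝ) + 1) / 4 ^ m = (m + 1) * r ^ 2 := by
    rw [hr_def, ← rr_sq]
    ring
  rw [h5, ← hr_def] at h4
  have h6 : (2 + B * r ^ 2 + 1) ^ 3 ≤ (4 + K * |E|) ^ 3 :=
    pow_le_pow_left₀ (by positivity) (by linarith) 3
  have h7 : C₁ * (2 + B * r ^ 2 + 1) ^ 3 * ((m + 1) * r ^ 2) * I / ε ≤
      C₁ * (4 + K * |E|) ^ 3 * ((m + 1) * r ^ 2) * I / ε := by gcongr
  have h8 : (S.card : ℝ) * (r / 2) ^ 3 ≤ C₁ * (4 + K * |E|) ^ 3 * ((m + 1) * r ^ 2) * I / ε :=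
    h4.trans h7
  have h9 : (S.card : ℝ) * r ≤ 8 * (C₁ * (4 + K * |E|) ^ 3 / ε) * (m + 1) * I := by
    have e1 : (S.card : ℝ) * (r / 2) ^ 3 = (S.card * r) * (r ^ 2 / 8) := by ring
    have e2 : C₁ * (4 + K * |E|) ^ 3 * ((m + 1) * r ^ 2) * I / ε =
      (8 * (C₁ * (4 + K * |E|) ^ 3 / ε) * (m + 1) * I) * (r ^ 2 / 8) := by ring
    rw [e1, e2] at h8
    exact le_of_mul_le_mul_right h8 (by positivity)
  refine h9.trans ?_
  gcongr

/-- A grid in an interval. -/
theorem grid {a h t : ℝ} {N : ℕ} (hh : 0 < h) (h0 : a ≤ t) (h1 : t ≤ a + N * h) :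
    ∃ j ∈ Finset.range (N + 1), |t - (a + j * h)| ≤ h := by
  refine ⟨⌊(t - a) / h⌋₊, ?_, ?_⟩
  · rw [Finset.mem_range]
    have h2 : (t - a) / h ≤ N := by
      rw [div_le_iff₀ hh]
      linarith
    exact Nat.lt_succ_of_le (Nat.floor_le_of_le h2)
  · have h2 : 0 ≤ (t - a) / h := div_nonneg (by linarith) hh.le
    have h3 := Nat.floor_le h2
    have h4 := Nat.lt_floor_add_one ((t - a) / h)
    rw [le_div_iff₀ hh] at h3
    rw [div_lt_iff₀ hh] at h4
    rw [abs_le]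
    constructor <;> nlinarith

/-- The covering by moving balls. -/
theorem t_LCOV : S_WFL → S_CRIT2 → S_WMARK → S_GRDY → S_LCOV := by
  rintro ⟨K, hK, hW⟩ ⟨ε, hε, hC2⟩ ⟨C₁, hC₁, hM⟩ hG E
  set M : ℕ := ⌈K * |E| + 1⌉₊ with hM_def
  set C₃ : ℝ := Real.log (M + 1) + 3 * Real.log 17 + 5 * Real.log 2 with hC₃
  have hl2 : 0 < Real.log 2 := Real.log_pos (by norm_num)
  have hl17 : 0 < Real.log 17 := Real.log_pos (by norm_num)
  have hlM : 0 ≤ Real.log ((M : ℝ) + 1) := Real.log_nonneg (by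
    have : (0 : ℝ) ≤ M := Nat.cast_nonneg M
    linarith)
  have hC₃0 : 0 < C₃ := by rw [hC₃]; positivity
  refine ⟨64 * (C₁ * (6 + 2 * (K * |E|)) ^ 3 / ε) * (1 + C₃), by positivity, ?_⟩
  intro T D G u p hT m s hm h0 h1
  set r := rr m with hr_def
  have hr : 0 < r := rr_pos m
  have hr1 : r ≤ 1 := rr_le_one m
  obtain ⟨C', -, hW'⟩ := hW E r hr hr1
  have hr2 : 0 < r ^ 2 := by positivity
  have hr21 : r ^ 2 ≤ 1 := pow_le_one₀ hr.le hr1
  set t₀ := s - r ^ 2 / 32 with ht₀_def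
  obtain ⟨X, Y, hX⟩ := hW' T D G u p hT t₀ ⟨by rw [ht₀_def]; linarith, by rw [ht₀_def]; linarith⟩
  set B := K * |E| / √(r ^ 3) + 1 with hB_def
  have hB : 0 < B := by positivity
  have hBr : B * r ^ 2 ≤ K * |E| + 1 := speed hK.le hr hr1
  set R : ℝ := 4 + K * |E| with hR_def
  have hR : 0 ≤ R := by positivity
  have hmark := hM T E D G u p hT m s t₀ h0 h1 ⟨by rw [ht₀_def, ← hr_def]; linarith,
    by rw [ht₀_def]; linarith⟩ X Y B C' hB.le hX R ε hR hε
  set A := {y ∈ ball (0 : V) R | ε ≤ ∫ t in Ioo (-1 : ℝ) 0,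
            FF m (u (s + rr m ^ 2 * t)) (X (s + rr m ^ 2 * t) y)} with hA_def
  set I := ∫ t in Ioo (s - rr m ^ 2) s, enstrophy (u t) with hI_def
  have hI0 : 0 ≤ I := setIntegral_nonneg measurableSet_Ioo fun t _ => enst_nn _
  set a := C₁ * (R + B * rr m ^ 2 + 1) ^ 3 * ((m + 1) / 4 ^ m) * I / ε with ha_def
  -- the grids
  set N₁ : ℕ := M * 4 ^ m with hN₁
  have hM1 : 1 ≤ M := by
    rw [hM_def, Nat.one_le_ceil_iff]
    positivity
  have hN1 : 0 < N₁ := by positivity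
  have hN1' : (0 : ℝ) < N₁ := by exact_mod_cast hN1
  set δ : ℝ := r ^ 2 / (16 * N₁) with hδ_def
  have hδ : 0 < δ := by positivity
  have hMK : K * |E| + 1 ≤ M := Nat.le_ceil _
  have hBN : B ≤ N₁ := by
    have h2 := speed2 (K := K) (E := E) hK.le m
    rw [hN₁]
    push_cast
    refine h2.trans ?_
    gcongr
  have hBδ : B * δ ≤ r / 16 := by
    rw [hδ_def, ← mul_div_assoc, div_le_div_iff₀ (by positivity) (by norm_num)]
    have h2 : B * r ≤ N₁ := by nlinarith
    nlinarith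
  let tt : ℕ → ℝ := fun j => s - r ^ 2 / 16 + j * δ
  let xx : (Fin 3 → ℕ) → V := fun k i => k i * (r / 16)
  let act : ℕ × (Fin 3 → ℕ) → Prop := fun jk => tt jk.1 ∈ Ioo 0 T ∧
    ∃ t ∈ Ioo (s - r ^ 2 / 16) s, ∃ x ∈ cube, SingPt G u t x ∧ |t - tt jk.1| ≤ δ ∧
      ‖x - xx jk.2‖ ≤ r / 16
  classical
  set N₂ : ℕ := 16 * 2 ^ m with hN₂
  let F₀ : Finset (ℕ × (Fin 3 → ℕ)) :=
    Finset.range (N₁ + 1) ×ˢ Fintype.piFinset (fun _ => Finset.range (N₂ + 1))
  let F := F₀.filter act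
  let L : ℕ × (Fin 3 → ℕ) → Set V := fun jk => X (tt jk.1) ⁻¹' ball (xx jk.2) (r / 8)
  have hcontX : ∀ t ∈ Ioo 0 T, Continuous (X t) := by
    intro t ht
    have h2 : ContinuousOn (fun z : V => ((t, z) : ℝ × V)) univ := by fun_prop
    have h3 := hX.cont.comp h2 (fun z _ => ⟨ht, mem_univ z⟩)
    exact continuousOn_univ.1 h3
  -- near points of the grid
  have hnear : ∀ t ∈ Ioo (s - r ^ 2 / 16) s, ∀ x ∈ cube, SingPt G u t x → ∀ jk ∈ F₀,
      tt jk.1 ∈ Ioo 0 T → |t - tt jk.1| ≤ δ → ‖x - xx jk.2‖ ≤ r / 16 →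
        ∀ y ∈ L jk, ‖X t y - x‖ < r / 4 := by
    intro t ht x hx _ jk _ htt h2 h3 y hy
    have h4 : ‖X (tt jk.1) y - xx jk.2‖ < r / 8 := by
      have h5 : X (tt jk.1) y ∈ ball (xx jk.2) (r / 8) := hy
      rwa [mem_ball, dist_eq_norm] at h5
    have h5 := disp (hX.path y) htt (t := t) ⟨by linarith [ht.1], by linarith [ht.2]⟩
    have h6 : ‖X t y - X (tt jk.1) y‖ ≤ r / 16 := by
      refine h5.trans ((mul_le_mul_of_nonneg_left h2 hB.le).trans hBδ)
    have h7 : X t y - x = (X t y - X (tt jk.1) y) + (X (tt jk.1) y - xx jk.2) + (xx jk.2 - x) := by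
      abel
    rw [h7]
    have h8 := norm_add₃_le (a := X t y - X (tt jk.1) y) (b := X (tt jk.1) y - xx jk.2)
      (c := xx jk.2 - x)
    rw [norm_sub_rev (xx jk.2) x] at h8
    linarith
  have hLA : ∀ jk ∈ F, L jk ⊆ A ∧ MeasurableSet (L jk) ∧
      ENNReal.ofReal ((r / 4) ^ 3) ≤ volume (L jk) := by
    intro jk hjk
    obtain ⟨hjk0, htt, t, ht, x, hx, hsing, h2, h3⟩ := Finset.mem_filter.1 hjk
    refine ⟨?_, ?_, ?_⟩
    · intro y hy
      have h4 := hnear t ht x hx hsing jk hjk0 htt h2 h3 y hy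
      refine ⟨?_, ?_⟩
      · rw [mem_ball, dist_zero_right]
        have ht0 : t₀ ∈ Ioo 0 T := ⟨by rw [ht₀_def]; linarith, by rw [ht₀_def]; linarith⟩
        have h5 := disp (hX.path y) (s := t) (t := t₀) ⟨by linarith [ht.1], by linarith [ht.2]⟩ ht0
        have h5' : ‖y - X t y‖ ≤ B * |t₀ - t| := by
          have h6 : X t₀ y = y := hX.lab y
          rw [← h6]
          rw [h6]
          simpa only [h6] using h5
        have h7 : |t₀ - t| ≤ r ^ 2 := by
          rw [abs_le, ht₀_def]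
          constructor <;> linarith [ht.1, ht.2]
        have h8 := cube_norm hx
        have h9 : ‖y‖ ≤ ‖y - X t y‖ + ‖X t y - x‖ + ‖x‖ := by
          have := norm_add₃_le (a := y - X t y) (b := X t y - x) (c := x)
          rwa [sub_add_sub_cancel, sub_add_cancel] at this
        have h10 : B * |t₀ - t| ≤ B * r ^ 2 := mul_le_mul_of_nonneg_left h7 hB.le
        rw [hR_def]
        linarith
      · refine hC2 T E D G u p hT m s hm h0 h1 (fun t => X t y) (fun t => Y t y) B C' (hX.path y)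
          t ht x ?_ hsing
        rw [mem_ball, dist_eq_norm, norm_sub_rev]
        exact h4
    · exact (hcontX _ htt).measurable measurableSet_ball
    · have h4 : volume (L jk) = volume (ball (xx jk.2) (r / 8)) := by
        have h5 := hX.meas _ htt
        have h6 := Measure.map_apply (μ := volume) (hcontX _ htt).measurable
          (measurableSet_ball (x := xx jk.2) (ε := r / 8))
        rw [h5] at h6
        exact h6.symm
      rw [h4, vol_ball _ (by positivity)]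
      apply ENNReal.ofReal_le_ofReal
      apply le_of_eq
      ring
  obtain ⟨Z, hZ, hcard⟩ := hG _ F L A a ((r / 4) ^ 3) (by positivity) hmark hLA
  -- every singular point has an active pair
  have hact : ∀ t ∈ Ioo (s - r ^ 2 / 16) s, ∀ x ∈ cube, SingPt G u t x →
      ∃ jk ∈ F, tt jk.1 ∈ Ioo 0 T ∧ |t - tt jk.1| ≤ δ ∧ ‖x - xx jk.2‖ ≤ r / 16 := by
    intro t ht x hx hsing
    obtain ⟨j, hj, hj2⟩ := grid (a := s - r ^ 2 / 16) (t := t) (N := N₁) hδ ht.1.le (by
      have : (N₁ : ℝ) * δ = r ^ 2 / 16 := by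
        rw [hδ_def]
        field_simp
      linarith [ht.2])
    have hk : ∀ i : Fin 3, ∃ k ∈ Finset.range (N₂ + 1), |x i - ((0 : ℝ) + k * (r / 16))| ≤ r / 16 := by
      intro i
      refine grid (by positivity) ?_ ?_
      · exact hx.1 i
      · have h2 := hx.2 i
        simp only [Pi.one_apply] at h2
        have h3 : (N₂ : ℝ) * (r / 16) = 1 := by
          rw [hN₂, hr_def]
          unfold rr
          push_cast
          rw [one_div, inv_pow]
          field_simp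
        linarith
    choose k hk1 hk2 using hk
    have hx2 : ‖x - xx k‖ ≤ r / 16 := by
      rw [pi_norm_le_iff_of_nonneg (by positivity)]
      intro i
      have h2 := hk2 i
      rw [zero_add] at h2
      exact h2
    have hj2' : |t - tt j| ≤ δ := hj2
    have hT' : tt j ∈ Ioo 0 T := by
      have h3 : (0 : ℝ) ≤ j * δ := by positivity
      have h5 : (j : ℝ) ≤ N₁ := by
        exact_mod_cast Nat.lt_succ_iff.1 (Finset.mem_range.1 hj)
      have h4 : (j : ℝ) * δ ≤ r ^ 2 / 16 := by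
        calc (j : ℝ) * δ ≤ N₁ * δ := mul_le_mul_of_nonneg_right h5 hδ.le
          _ = r ^ 2 / 16 := by
            rw [hδ_def]
            field_simp
      show s - r ^ 2 / 16 + j * δ ∈ Ioo 0 T
      constructor <;> linarith
    exact ⟨(j, k), Finset.mem_filter.2 ⟨Finset.mem_product.2 ⟨hj, Fintype.mem_piFinset.2 hk1⟩, hT',
      t, ht, x, hx, hsing, hj2', hx2⟩, hT', hj2', hx2⟩
  by_cases hF : F.Nonempty
  swap
  · refine ⟨0, fun i => i.elim0, fun i => i.elim0, ?_, ?_⟩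
    · intro t ht x hx hsing
      obtain ⟨jk, hjk, -⟩ := hact t ht x hx hsing
      exact absurd ⟨jk, hjk⟩ hF
    · rw [Nat.cast_zero, zero_mul]
      positivity
  refine ⟨Z.card, fun i t => X t (Z.equivFin.symm i : V), ?_, ?_, ?_⟩
  · intro i
    exact ⟨fun t => Y t (Z.equivFin.symm i : V), B, C', hX.path _⟩
  · intro t ht x hx hsing
    obtain ⟨jk, hmem, hT', hj2', hx2⟩ := hact t ht x hx hsing
    obtain ⟨y, hyZ, hyL⟩ := hZ _ hmem
    refine ⟨Z.equivFin ⟨y, hyZ⟩, ?_⟩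
    show ‖X t ((Z.equivFin.symm (Z.equivFin ⟨y, hyZ⟩) : Z) : V) - x‖ < r / 4
    rw [Equiv.symm_apply_apply]
    exact hnear t ht x hx hsing jk (Finset.mem_filter.1 hmem).1 hT' hj2' hx2 y hyL
  · have h2 := hcard hF
    have hav : (r / 4) ^ 3 ≤ a := by
      obtain ⟨i, hi⟩ := hF
      obtain ⟨h3, -, h4⟩ := hLA i hi
      have h5 := h4.trans ((measure_mono h3).trans hmark)
      exact (ENNReal.ofReal_le_ofReal_iff' .. |>.1 h5).resolve_right (by
        have : 0 < (r / 4) ^ 3 := by positivity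
        linarith)
    have hv : 0 < (r / 4) ^ 3 := by positivity
    have h1a : 1 ≤ a / (r / 4) ^ 3 := (one_le_div hv).2 hav
    have hFc : (F.card : ℝ) ≤ (M + 1) * 4 ^ m * (17 * 2 ^ m) ^ 3 := by
      have h3 : F.card ≤ F₀.card := Finset.card_filter_le _ _
      have h4 : F₀.card = (N₁ + 1) * (N₂ + 1) ^ 3 := by
        rw [Finset.card_product, Finset.card_range, Fintype.card_piFinset]
        simp
      have h5 : N₁ + 1 ≤ (M + 1) * 4 ^ m := by
        rw [hN₁, add_mul]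
        have : 1 ≤ 4 ^ m := Nat.one_le_pow _ _ (by norm_num)
        omega
      have h6 : N₂ + 1 ≤ 17 * 2 ^ m := by
        rw [hN₂]
        have : 1 ≤ 2 ^ m := Nat.one_le_pow _ _ (by norm_num)
        omega
      have h7 : F.card ≤ (M + 1) * 4 ^ m * (17 * 2 ^ m) ^ 3 := by
        rw [h4] at h3
        exact h3.trans (Nat.mul_le_mul h5 (Nat.pow_le_pow_left h6 3))
      exact_mod_cast h7
    have hlog : Real.log F.card ≤ C₃ * (m + 1) := by
      have h3 : 0 < (F.card : ℝ) := by exact_mod_cast Finset.card_pos.2 hF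
      refine (Real.log_le_log h3 hFc).trans ?_
      have e1 : Real.log (((M : ℝ) + 1) * 4 ^ m * (17 * 2 ^ m) ^ 3) =
          Real.log ((M : ℝ) + 1) + m * (2 * Real.log 2) + 3 * (Real.log 17 + m * Real.log 2) := by
        have hM0 : ((M : ℝ) + 1) ≠ 0 := by positivity
        rw [Real.log_mul (by positivity) (by positivity), Real.log_mul hM0 (by positivity),
          Real.log_pow, Real.log_pow, Real.log_mul (by norm_num) (by positivity), Real.log_pow,
          show (4 : ℝ) = 2 ^ 2 by norm_num, Real.log_pow]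
        push_cast
        ring
      rw [e1, hC₃]
      have hm0 : (0 : ℝ) ≤ m := Nat.cast_nonneg m
      nlinarith [mul_nonneg hlM hm0, mul_nonneg hl17.le hm0, mul_nonneg hl2.le hm0]
    have h3 : (Z.card : ℝ) ≤ a / (r / 4) ^ 3 * ((1 + C₃) * (m + 1)) := by
      have h4 : (0 : ℝ) ≤ a / (r / 4) ^ 3 := by linarith
      have h5 : a / (r / 4) ^ 3 * Real.log F.card ≤ a / (r / 4) ^ 3 * (C₃ * (m + 1)) :=
        mul_le_mul_of_nonneg_left hlog h4
      have hm0 : (0 : ℝ) ≤ m := Nat.cast_nonneg m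
      nlinarith [mul_nonneg h4 hm0]
    have h4 : a ≤ C₁ * (6 + 2 * (K * |E|)) ^ 3 * ((m + 1) * r ^ 2) * I / ε := by
      have h5 : ((m : ℝ) + 1) / 4 ^ m = (m + 1) * r ^ 2 := by
        rw [hr_def, ← rr_sq]
        ring
      rw [ha_def, h5, ← hr_def]
      have h6 : R + B * r ^ 2 + 1 ≤ 6 + 2 * (K * |E|) := by
        rw [hR_def]
        linarith
      have h7 : 0 ≤ R + B * r ^ 2 + 1 := by positivity
      gcongr
    have h5 : (Z.card : ℝ) ≤ C₁ * (6 + 2 * (K * |E|)) ^ 3 * ((m + 1) * r ^ 2) * I / ε /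
        (r / 4) ^ 3 * ((1 + C₃) * (m + 1)) := by
      refine h3.trans ?_
      gcongr
    calc (Z.card : ℝ) * r ≤ C₁ * (6 + 2 * (K * |E|)) ^ 3 * ((m + 1) * r ^ 2) * I / ε /
        (r / 4) ^ 3 * ((1 + C₃) * (m + 1)) * r := mul_le_mul_of_nonneg_right h5 hr.le
      _ = 64 * (C₁ * (6 + 2 * (K * |E|)) ^ 3 / ε) * (1 + C₃) * (m + 1) ^ 2 * I := by
        field_simp
        ring

end Pool.Agent.Y710.NS
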