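import Pool.Agent.Y8.Stm6
import Pool.Agent.Y710.NS.Cov

/-!
Coverings of the singular points by moving balls, without logarithm (variant of `Cov.lean`).
-/

open MeasureTheory Set Metric
open scoped ContDiff NNReal

namespace Pool.Agent.Y710.NS

open H459R3.NS W221.NS Pool.Agent.Y8

theorem speed3 {K E r : ℝ} (hK : 0 ≤ K) (hr : 0 < r) (hr1 : r ≤ 1) :
    K * |E| / √(r ^ 3) + 1 ≤ (K * |E| + 1) / r ^ 2 := by
  rw [le_div_iff₀ (by positivity)]
  exact speed hK hr hr1

/-- The singular points at a fixed time. -/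
theorem t_SLC3 : S_WFL → S_CRIT3 → S_WMARK3 → S_SLC3 := by
  rintro ⟨K, hK, hW⟩ ⟨ε, hε, hC2⟩ ⟨C₁, hC₁, hM⟩ E
  refine ⟨8 * (C₁ * (4 + K * |E|) ^ 3 / ε), by positivity, ?_⟩
  intro T D G u p hT r t₀ hr hr1 h0 h1 S hS hsep
  obtain ⟨C', -, hW'⟩ := hW E r hr hr1
  have hr2 : 0 < r ^ 2 := by positivity
  obtain ⟨X, Y, hX⟩ := hW' T D G u p hT t₀ ⟨by linarith, by linarith⟩
  set B := K * |E| / √(r ^ 3) + 1 with hB_def
  have hB : 0 ≤ B := by positivity
  have hBr : B * r ^ 2 ≤ K * |E| + 1 := speed hK.le hr hr1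
  set s := t₀ + r ^ 2 / 32 with hs_def
  have hsT : s < T := by rw [hs_def]; linarith
  have hrs : r ^ 2 < s := by rw [hs_def]; linarith
  have hmark := hM T E D G u p hT r s t₀ hr hr1 hrs hsT
    ⟨by rw [hs_def]; linarith, by rw [hs_def]; linarith⟩ X Y B C' hB hX 2 ε (by norm_num) hε
  set A := {y ∈ ball (0 : V) 2 | ε * r ≤ ∫ t in Ioo (s - r ^ 2) s, B2 (X t y) (8 * r) (u t)} with hA_def
  have hsub : ⋃ x ∈ S, ball x (r / 4) ⊆ A := by
    intro y hy
    simp only [mem_iUnion, exists_prop] at hy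
    obtain ⟨x, hxS, hy⟩ := hy
    rw [mem_ball, dist_eq_norm] at hy
    refine ⟨?_, ?_⟩
    · rw [mem_ball, dist_zero_right]
      have h2 := cube_norm (hS x hxS).1
      have h3 : ‖y‖ ≤ ‖y - x‖ + ‖x‖ := by
        have := norm_add_le (y - x) x
        rwa [sub_add_cancel] at this
      linarith
    · refine hC2 T E D G u p hT r s hr hr1 hrs hsT (fun t => X t y) (fun t => Y t y) B C' (hX.path y)
        t₀ ⟨by rw [hs_def]; linarith, by rw [hs_def]; linarith⟩ x ?_ (hS x hxS).2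
      rw [mem_ball, dist_eq_norm]
      show ‖x - X t₀ y‖ < r / 4
      rw [hX.lab y, norm_sub_rev]
      exact hy
  have hdis : (S : Set V).PairwiseDisjoint (fun x => ball x (r / 4)) := by
    intro x hx y hy hxy
    apply ball_disjoint_ball
    rw [dist_eq_norm]
    have := hsep x hx y hy hxy
    linarith
  have hvol : volume (⋃ x ∈ S, ball x (r / 4)) = ENNReal.ofReal (S.card * (r / 2) ^ 3) := by
    rw [measure_biUnion_finset hdis (fun x _ => measurableSet_ball)]
    have h2 : ∀ x ∈ S, volume (ball x (r / 4)) = ENNReal.ofReal ((r / 2) ^ 3) := by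
      intro x _
      rw [vol_ball x (by positivity)]
      congr 1
      ring
    rw [Finset.sum_congr rfl h2, Finset.sum_const, nsmul_eq_mul,
      ENNReal.ofReal_mul (by positivity), ENNReal.ofReal_natCast]
  have h3 : ENNReal.ofReal (S.card * (r / 2) ^ 3) ≤ _ := hvol ▸ (measure_mono hsub).trans hmark
  set I := ∫ t in Ioo (s - r ^ 2) s, enstrophy (u t) with hI_def
  have hI0 : 0 ≤ I := setIntegral_nonneg measurableSet_Ioo fun t _ => enst_nn _
  have hI : I ≤ ∫ t in Ioo (t₀ - r ^ 2) (t₀ + r ^ 2), enstrophy (u t) :=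
    enst_mono hT (by linarith) (by rw [hs_def]; linarith) (by rw [hs_def]; linarith)
      (by linarith)
  have h4 := (ENNReal.ofReal_le_ofReal_iff (by positivity)).1 h3
  have h6 : (2 + B * r ^ 2 + 1) ^ 3 ≤ (4 + K * |E|) ^ 3 :=
    pow_le_pow_left₀ (by positivity) (by linarith) 3
  have h7 : C₁ * (2 + B * r ^ 2 + 1) ^ 3 * r ^ 2 * I / ε ≤
      C₁ * (4 + K * |E|) ^ 3 * r ^ 2 * I / ε := by gcongr
  have h8 : (S.card : ℝ) * (r / 2) ^ 3 ≤ C₁ * (4 + K * |E|) ^ 3 * r ^ 2 * I / ε :=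
    h4.trans h7
  have h9 : (S.card : ℝ) * r ≤ 8 * (C₁ * (4 + K * |E|) ^ 3 / ε) * I := by
    have e1 : (S.card : ℝ) * (r / 2) ^ 3 = (S.card * r) * (r ^ 2 / 8) := by ring
    have e2 : C₁ * (4 + K * |E|) ^ 3 * r ^ 2 * I / ε =
      (8 * (C₁ * (4 + K * |E|) ^ 3 / ε) * I) * (r ^ 2 / 8) := by ring
    rw [e1, e2] at h8
    exact le_of_mul_le_mul_right h8 (by positivity)
  refine h9.trans ?_
  gcongr

/-- The covering by moving balls. -/
theorem t_LCOV3 : S_WFL → S_CRIT3 → S_WMARK3 → S_GRDY → S_LCOV3 := by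
  rintro ⟨K, hK, hW⟩ ⟨ε, hε, hC2⟩ ⟨C₁, hC₁, hM⟩ hG E
  set M : ℝ := K * |E| + 1 with hM_def
  have hM1 : 1 ≤ M := by
    rw [hM_def]
    have : 0 ≤ K * |E| := by positivity
    linarith
  set C₃ : ℝ := Real.log (M + 2) + 3 * Real.log 18 + 5 with hC₃
  have hl18 : 0 < Real.log 18 := Real.log_pos (by norm_num)
  have hlM : 0 ≤ Real.log (M + 2) := Real.log_nonneg (by linarith)
  have hC₃0 : 0 < C₃ := by rw [hC₃]; positivity
  refine ⟨64 * (C₁ * (6 + 2 * (K * |E|)) ^ 3 / ε) * (1 + C₃), by positivity, ?_⟩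
  intro T D G u p hT r s hr hr1 h0 h1
  obtain ⟨C', -, hW'⟩ := hW E r hr hr1
  have hr2 : 0 < r ^ 2 := by positivity
  have hr21 : r ^ 2 ≤ 1 := pow_le_one₀ hr.le hr1
  set t₀ := s - r ^ 2 / 32 with ht₀_def
  obtain ⟨X, Y, hX⟩ := hW' T D G u p hT t₀ ⟨by rw [ht₀_def]; linarith, by rw [ht₀_def]; linarith⟩
  set B := K * |E| / √(r ^ 3) + 1 with hB_def
  have hB : 0 < B := by positivity
  have hBr : B * r ^ 2 ≤ K * |E| + 1 := speed hK.le hr hr1
  set R : ℝ := 4 + K * |E| with hR_def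
  have hR : 0 ≤ R := by positivity
  have hmark := hM T E D G u p hT r s t₀ hr hr1 h0 h1 ⟨by rw [ht₀_def]; linarith,
    by rw [ht₀_def]; linarith⟩ X Y B C' hB.le hX R ε hR hε
  set A := {y ∈ ball (0 : V) R | ε * r ≤ ∫ t in Ioo (s - r ^ 2) s, B2 (X t y) (8 * r) (u t)} with hA_def
  set I := ∫ t in Ioo (s - r ^ 2) s, enstrophy (u t) with hI_def
  have hI0 : 0 ≤ I := setIntegral_nonneg measurableSet_Ioo fun t _ => enst_nn _
  set a := C₁ * (R + B * r ^ 2 + 1) ^ 3 * r ^ 2 * I / ε with ha_def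
  -- the grids
  set N₁ : ℕ := ⌈M / r ^ 2⌉₊ with hN₁
  have hNle : M / r ^ 2 ≤ N₁ := Nat.le_ceil _
  have hNlt : (N₁ : ℝ) < M / r ^ 2 + 1 := Nat.ceil_lt_add_one (by positivity)
  have hN1' : (0 : ℝ) < N₁ := lt_of_lt_of_le (by positivity) hNle
  set δ : ℝ := r ^ 2 / (16 * N₁) with hδ_def
  have hδ : 0 < δ := by positivity
  have hBN : B ≤ N₁ := (speed3 (K := K) (E := E) hK.le hr hr1).trans hNle
  have hBδ : B * δ ≤ r / 16 := by
    rw [hδ_def, ← mul_div_assoc, div_le_div_iff₀ (by positivity) (by norm_num)]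
    have h2 : B * r ≤ N₁ := by nlinarith
    nlinarith
  let tt : ℕ → ℝ := fun j => s - r ^ 2 / 16 + j * δ
  let xx : (Fin 3 → ℕ) → V := fun k i => k i * (r / 16)
  let act : ℕ × (Fin 3 → ℕ) → Prop := fun jk => tt jk.1 ∈ Ioo 0 T ∧
    ∃ t ∈ Ioo (s - r ^ 2 / 16) s, ∃ x ∈ cube, SingPt G u t x ∧ |t - tt jk.1| ≤ δ ∧
      ‖x - xx jk.2‖ ≤ r / 16
  classical
  set N₂ : ℕ := ⌈16 / r⌉₊ with hN₂
  have hN2le : 16 / r ≤ N₂ := Nat.le_ceil _
  have hN2lt : (N₂ : ℝ) < 16 / r + 1 := Nat.ceil_lt_add_one (by positivity)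
  let F₀ : Finset (ℕ × (Fin 3 → ℕ)) :=
    Finset.range (N₁ + 1) ×ˢ Fintype.piFinset (fun _ => Finset.range (N₂ + 1))
  let F := F₀.filter act
  let L : ℕ × (Fin 3 → ℕ) → Set V := fun jk => X (tt jk.1) ⁻¹' ball (xx jk.2) (r / 8)
  have hcontX : ∀ t ∈ Ioo 0 T, Continuous (X t) := by
    intro t ht
    have h2 : ContinuousOn (fun z : V => ((t, z) : ℝ × V)) univ := by fun_prop
    have h3 := hX.cont.comp h2 (fun z _ => ⟨ht, mem_univ z⟩)
    exact continuousOn_univ.1 h3
  -- near points of the grid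
  have hnear : ∀ t ∈ Ioo (s - r ^ 2 / 16) s, ∀ x ∈ cube, SingPt G u t x → ∀ jk ∈ F₀,
      tt jk.1 ∈ Ioo 0 T → |t - tt jk.1| ≤ δ → ‖x - xx jk.2‖ ≤ r / 16 →
        ∀ y ∈ L jk, ‖X t y - x‖ < r / 4 := by
    intro t ht x hx _ jk _ htt h2 h3 y hy
    have h4 : ‖X (tt jk.1) y - xx jk.2‖ < r / 8 := by
      have h5 : X (tt jk.1) y ∈ ball (xx jk.2) (r / 8) := hy
      rwa [mem_ball, dist_eq_norm] at h5
    have h5 := disp (hX.path y) htt (t := t) ⟨by linarith [ht.1], by linarith [ht.2]⟩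
    have h6 : ‖X t y - X (tt jk.1) y‖ ≤ r / 16 := by
      refine h5.trans ((mul_le_mul_of_nonneg_left h2 hB.le).trans hBδ)
    have h7 : X t y - x = (X t y - X (tt jk.1) y) + (X (tt jk.1) y - xx jk.2) + (xx jk.2 - x) := by
      abel
    rw [h7]
    have h8 := norm_add₃_le (a := X t y - X (tt jk.1) y) (b := X (tt jk.1) y - xx jk.2)
      (c := xx jk.2 - x)
    rw [norm_sub_rev (xx jk.2) x] at h8
    linarith
  have hLA : ∀ jk ∈ F, L jk ⊆ A ∧ MeasurableSet (L jk) ∧
      ENNReal.ofReal ((r / 4) ^ 3) ≤ volume (L jk) := by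
    intro jk hjk
    obtain ⟨hjk0, htt, t, ht, x, hx, hsing, h2, h3⟩ := Finset.mem_filter.1 hjk
    refine ⟨?_, ?_, ?_⟩
    · intro y hy
      have h4 := hnear t ht x hx hsing jk hjk0 htt h2 h3 y hy
      refine ⟨?_, ?_⟩
      · rw [mem_ball, dist_zero_right]
        have ht0 : t₀ ∈ Ioo 0 T := ⟨by rw [ht₀_def]; linarith, by rw [ht₀_def]; linarith⟩
        have h5 := disp (hX.path y) (s := t) (t := t₀) ⟨by linarith [ht.1], by linarith [ht.2]⟩ ht0
        have h5' : ‖y - X t y‖ ≤ B * |t₀ - t| := by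
          have h6 : X t₀ y = y := hX.lab y
          rw [← h6]
          rw [h6]
          simpa only [h6] using h5
        have h7 : |t₀ - t| ≤ r ^ 2 := by
          rw [abs_le, ht₀_def]
          constructor <;> linarith [ht.1, ht.2]
        have h8 := cube_norm hx
        have h9 : ‖y‖ ≤ ‖y - X t y‖ + ‖X t y - x‖ + ‖x‖ := by
          have := norm_add₃_le (a := y - X t y) (b := X t y - x) (c := x)
          rwa [sub_add_sub_cancel, sub_add_cancel] at this
        have h10 : B * |t₀ - t| ≤ B * r ^ 2 := mul_le_mul_of_nonneg_left h7 hB.le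
        rw [hR_def]
        linarith
      · refine hC2 T E D G u p hT r s hr hr1 h0 h1 (fun t => X t y) (fun t => Y t y) B C' (hX.path y)
          t ht x ?_ hsing
        rw [mem_ball, dist_eq_norm, norm_sub_rev]
        exact h4
    · exact (hcontX _ htt).measurable measurableSet_ball
    · have h4 : volume (L jk) = volume (ball (xx jk.2) (r / 8)) := by
        have h5 := hX.meas _ htt
        have h6 := Measure.map_apply (μ := volume) (hcontX _ htt).measurable
          (measurableSet_ball (x := xx jk.2) (ε := r / 8))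
        rw [h5] at h6
        exact h6.symm
      rw [h4, vol_ball _ (by positivity)]
      apply ENNReal.ofReal_le_ofReal
      apply le_of_eq
      ring
  obtain ⟨Z, hZ, hcard⟩ := hG _ F L A a ((r / 4) ^ 3) (by positivity) hmark hLA
  -- every singular point has an active pair
  have hact : ∀ t ∈ Ioo (s - r ^ 2 / 16) s, ∀ x ∈ cube, SingPt G u t x →
      ∃ jk ∈ F, tt jk.1 ∈ Ioo 0 T ∧ |t - tt jk.1| ≤ δ ∧ ‖x - xx jk.2‖ ≤ r / 16 := by
    intro t ht x hx hsing
    obtain ⟨j, hj, hj2⟩ := grid (a := s - r ^ 2 / 16) (t := t) (N := N₁) hδ ht.1.le (by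
      have : (N₁ : ℝ) * δ = r ^ 2 / 16 := by
        rw [hδ_def]
        field_simp
      linarith [ht.2])
    have hk : ∀ i : Fin 3, ∃ k ∈ Finset.range (N₂ + 1), |x i - ((0 : ℝ) + k * (r / 16))| ≤ r / 16 := by
      intro i
      refine grid (by positivity) ?_ ?_
      · exact hx.1 i
      · have h2 := hx.2 i
        simp only [Pi.one_apply] at h2
        have h3 : 1 ≤ (N₂ : ℝ) * (r / 16) := by
          rw [div_le_iff₀ hr] at hN2le
          linarith
        linarith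
    choose k hk1 hk2 using hk
    have hx2 : ‖x - xx k‖ ≤ r / 16 := by
      rw [pi_norm_le_iff_of_nonneg (by positivity)]
      intro i
      have h2 := hk2 i
      rw [zero_add] at h2
      exact h2
    have hj2' : |t - tt j| ≤ δ := hj2
    have hT' : tt j ∈ Ioo 0 T := by
      have h3 : (0 : ℝ) ≤ j * δ := by positivity
      have h5 : (j : ℝ) ≤ N₁ := by
        exact_mod_cast Nat.lt_succ_iff.1 (Finset.mem_range.1 hj)
      have h4 : (j : ℝ) * δ ≤ r ^ 2 / 16 := by
        calc (j : ℝ) * δ ≤ N₁ * δ := mul_le_mul_of_nonneg_right h5 hδ.le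
          _ = r ^ 2 / 16 := by
            rw [hδ_def]
            field_simp
      show s - r ^ 2 / 16 + j * δ ∈ Ioo 0 T
      constructor <;> linarith
    exact ⟨(j, k), Finset.mem_filter.2 ⟨Finset.mem_product.2 ⟨hj, Fintype.mem_piFinset.2 hk1⟩, hT',
      t, ht, x, hx, hsing, hj2', hx2⟩, hT', hj2', hx2⟩
  have hlr : 0 ≤ Real.log (1 / r) := Real.log_nonneg (by rwa [one_le_div hr])
  by_cases hF : F.Nonempty
  swap
  · refine ⟨0, fun i => i.elim0, fun i => i.elim0, ?_, ?_⟩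
    · intro t ht x hx hsing
      obtain ⟨jk, hjk, -⟩ := hact t ht x hx hsing
      exact absurd ⟨jk, hjk⟩ hF
    · rw [Nat.cast_zero, zero_mul]
      positivity
  refine ⟨Z.card, fun i t => X t (Z.equivFin.symm i : V), ?_, ?_, ?_⟩
  · intro i
    exact ⟨fun t => Y t (Z.equivFin.symm i : V), B, C', hX.path _⟩
  · intro t ht x hx hsing
    obtain ⟨jk, hmem, hT', hj2', hx2⟩ := hact t ht x hx hsing
    obtain ⟨y, hyZ, hyL⟩ := hZ _ hmem
    refine ⟨Z.equivFin ⟨y, hyZ⟩, ?_⟩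
    show ‖X t ((Z.equivFin.symm (Z.equivFin ⟨y, hyZ⟩) : Z) : V) - x‖ < r / 4
    rw [Equiv.symm_apply_apply]
    exact hnear t ht x hx hsing jk (Finset.mem_filter.1 hmem).1 hT' hj2' hx2 y hyL
  · have h2 := hcard hF
    have hav : (r / 4) ^ 3 ≤ a := by
      obtain ⟨i, hi⟩ := hF
      obtain ⟨h3, -, h4⟩ := hLA i hi
      have h5 := h4.trans ((measure_mono h3).trans hmark)
      exact (ENNReal.ofReal_le_ofReal_iff' .. |>.1 h5).resolve_right (by
        have : 0 < (r / 4) ^ 3 := by positivity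
        linarith)
    have hv : 0 < (r / 4) ^ 3 := by positivity
    have h1a : 1 ≤ a / (r / 4) ^ 3 := (one_le_div hv).2 hav
    have hFc : (F.card : ℝ) ≤ (M + 2) * (1 / r) ^ 2 * (18 * (1 / r)) ^ 3 := by
      have h3 : F.card ≤ F₀.card := Finset.card_filter_le _ _
      have h4 : F₀.card = (N₁ + 1) * (N₂ + 1) ^ 3 := by
        rw [Finset.card_product, Finset.card_range, Fintype.card_piFinset]
        simp
      rw [h4] at h3
      have h3' : (F.card : ℝ) ≤ ((N₁ : ℝ) + 1) * ((N₂ : ℝ) + 1) ^ 3 := by exact_mod_cast h3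
      refine h3'.trans ?_
      have i2 : 1 ≤ 1 / r := by rwa [one_le_div hr]
      have i3 : 1 ≤ (1 / r) ^ 2 := one_le_pow₀ i2
      have h5 : (N₁ : ℝ) + 1 ≤ (M + 2) * (1 / r) ^ 2 := by
        have e : M / r ^ 2 = M * (1 / r) ^ 2 := by
          rw [one_div, inv_pow, div_eq_mul_inv]
        rw [e] at hNlt
        nlinarith
      have h6 : (N₂ : ℝ) + 1 ≤ 18 * (1 / r) := by
        have e : 16 / r = 16 * (1 / r) := by ring
        rw [e] at hN2lt
        linarith
      exact mul_le_mul h5 (pow_le_pow_left₀ (by positivity) h6 3) (by positivity) (by positivity)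
    have hlog : Real.log F.card ≤ C₃ * (1 + Real.log (1 / r)) := by
      have h3 : 0 < (F.card : ℝ) := by exact_mod_cast Finset.card_pos.2 hF
      refine (Real.log_le_log h3 hFc).trans ?_
      have ir : 0 < 1 / r := by positivity
      have e1 : Real.log ((M + 2) * (1 / r) ^ 2 * (18 * (1 / r)) ^ 3) =
          Real.log (M + 2) + 2 * Real.log (1 / r) + 3 * (Real.log 18 + Real.log (1 / r)) := by
        have hM0 : (M + 2) ≠ 0 := by positivity
        rw [Real.log_mul (by positivity) (by positivity), Real.log_mul hM0 (by positivity),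
          Real.log_pow, Real.log_pow, Real.log_mul (by norm_num) (by positivity)]
        push_cast
        ring
      rw [e1, hC₃]
      nlinarith [mul_nonneg hlM hlr, mul_nonneg hl18.le hlr]
    have h3 : (Z.card : ℝ) ≤ a / (r / 4) ^ 3 * ((1 + C₃) * (1 + Real.log (1 / r))) := by
      have h4 : (0 : ℝ) ≤ a / (r / 4) ^ 3 := by linarith
      have h5 : a / (r / 4) ^ 3 * Real.log F.card ≤ a / (r / 4) ^ 3 * (C₃ * (1 + Real.log (1 / r))) :=
        mul_le_mul_of_nonneg_left hlog h4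
      nlinarith [mul_nonneg h4 hlr]
    have h4 : a ≤ C₁ * (6 + 2 * (K * |E|)) ^ 3 * r ^ 2 * I / ε := by
      rw [ha_def]
      have h6 : R + B * r ^ 2 + 1 ≤ 6 + 2 * (K * |E|) := by
        rw [hR_def]
        linarith
      have h7 : 0 ≤ R + B * r ^ 2 + 1 := by positivity
      gcongr
    have h5 : (Z.card : ℝ) ≤ C₁ * (6 + 2 * (K * |E|)) ^ 3 * r ^ 2 * I / ε /
        (r / 4) ^ 3 * ((1 + C₃) * (1 + Real.log (1 / r))) := by
      refine h3.trans ?_
      have h8 : 0 ≤ (1 + C₃) * (1 + Real.log (1 / r)) := by positivity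
      refine mul_le_mul_of_nonneg_right ?_ h8
      gcongr
    calc (Z.card : ℝ) * r ≤ C₁ * (6 + 2 * (K * |E|)) ^ 3 * r ^ 2 * I / ε /
        (r / 4) ^ 3 * ((1 + C₃) * (1 + Real.log (1 / r))) * r := mul_le_mul_of_nonneg_right h5 hr.le
      _ = 64 * (C₁ * (6 + 2 * (K * |E|)) ^ 3 / ε) * (1 + C₃) * (1 + Real.log (1 / r)) * I := by
        generalize Real.log (1 / r) = ℓ
        field_simp
        ring

end Pool.Agent.Y710.NS
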